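import Mathlib
import Pool.Agent.H.MP_4856b2_nt.A

namespace Pool.Agent.Results.MP_4856b2_nt.Q1

/-- A-sequence, indexed from 0: strictly increasing positive integers, no term being a sum of two
or more distinct earlier terms. -/
def IsASeq (a : ℕ → ℕ) : Prop :=
  StrictMono a ∧ 0 < a 0 ∧
    ∀ (k : ℕ) (s : Finset ℕ), (∀ i ∈ s, i < k) → 2 ≤ s.card → ∑ i ∈ s, a i ≠ a k

theorem result (χ : ℕ → ℤ) (h1 : χ 1 = 1)
    (h2 : ∀ i : ℕ, 2 ≤ i →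
      IsGreatest {x : ℤ | ∃ j : ℕ, 1 ≤ j ∧ j ≤ i - 1 ∧ x = ((j : ℤ) + 1) * ((i : ℤ) - χ j)} (χ i)) :
    (⨆ a : {a : ℕ → ℕ // IsASeq a}, ∑' k : ℕ, ((a.1 k : ENNReal))⁻¹) ≤
      ∑' k : ℕ, ENNReal.ofReal (1 / (χ (k + 1) : ℝ)) := by
  refine iSup_le fun ⟨a, hm, h0, hs⟩ => ?_
  have h3 : ∀ i : ℕ, 2 ≤ i →
      (∀ j : ℕ, 1 ≤ j → j < i → ((j : ℤ) + 1) * ((i : ℤ) - χ j) ≤ χ i) ∧
      (∃ j : ℕ, 1 ≤ j ∧ j < i ∧ χ i = ((j : ℤ) + 1) * ((i : ℤ) - χ j)) := fun i hi =>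
    ⟨fun j j1 j2 => (h2 i hi).2 ⟨j, j1, by omega, rfl⟩,
      let ⟨j, j1, j2, j3⟩ := (h2 i hi).1; ⟨j, j1, by omega, j3⟩⟩
  refine (Pool.Agent.H.MP_189914_nt.main χ h1 h3 (fun i => a (i - 1)) fun i j hi hj => ?_).trans
    (le_of_eq (tsum_congr fun k => ?_))
  · obtain ⟨i, rfl⟩ : ∃ n, i = n + 1 := ⟨i - 1, by omega⟩
    obtain ⟨j, rfl⟩ : ∃ n, j = n + 1 := ⟨j - 1, by omega⟩
    exact Pool.Agent.H.MP_4856b2_nt.chi_ineq a hm h0 hs i j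
  · have p : 0 < χ (k + 1) := by
      rcases Nat.eq_zero_or_pos k with rfl | hk
      · simp [h1]
      · have := (h3 (k + 1) (by omega)).1 1 le_rfl (by omega)
        rw [h1] at this
        omega
    obtain ⟨n, hn⟩ := Int.eq_ofNat_of_zero_le p.le
    rw [hn] at p ⊢
    rw [Int.toNat_natCast, Int.cast_natCast, one_div, ENNReal.ofReal_inv_of_pos (by exact_mod_cast p),
      ENNReal.ofReal_natCast]

end Pool.Agent.Results.MP_4856b2_nt.Q1
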